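import Mathlib
import Pool.Agent.W307.SE.Stm
import Pool.Agent.W22.RK.Loc

/-! TSE-GOODP: Selmer classes are unramified at the good primes. -/

set_option autoImplicit false

namespace Pool.Agent.W405.SE

open Pool.Agent.W307.SE

theorem even_val {p : ℕ} [Fact p.Prime] {a b : ℚ_[p]} (ha : a ≠ 0) (hb : b ≠ 0)
    (h : IsSquare (a * b)) : Even (a.valuation + b.valuation) := by
  obtain ⟨r, hr⟩ := h
  have hr0 : r ≠ 0 := by
    rintro rfl
    rw [mul_zero] at hr
    exact (mul_ne_zero ha hb) hr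
  rw [← Padic.valuation_mul ha hb, hr, Padic.valuation_mul hr0 hr0]
  exact ⟨_, rfl⟩

theorem not_dvd {p : ℕ} [hp : Fact p.Prime] {d : ℤ} (hd : Squarefree d)
    (h : Even ((d : ℚ_[p]).valuation)) : ¬ (p : ℤ) ∣ d := by
  rintro ⟨d', rfl⟩
  have hpp := Nat.prime_iff_prime_int.mp hp.out
  have hd' : ¬ (p : ℤ) ∣ d' := by
    rintro ⟨d'', rfl⟩
    exact hpp.not_isUnit (hd (p : ℤ) ⟨d'', by ring⟩)
  have hd0 : d' ≠ 0 := by
    rintro rfl
    exact hd' (dvd_zero _)
  rw [Padic.valuation_intCast, padicValInt.mul hpp.ne_zero hd0,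
    padicValInt.eq_zero_of_not_dvd hd'] at h
  have h1 : padicValInt p (p : ℤ) = 1 := by
    rw [padicValInt.of_nat]
    exact padicValNat_self
  rw [h1] at h
  exact absurd h (by decide)

theorem goodp_of (h : Pool.Agent.W307.SE.RATP) : Pool.Agent.W307.SE.GOODP := by
  intro p hpf A B d1 d2 hAB hd1 hd2 ⟨x, y, hy, hxy, hs1, hs2⟩
  have hpp := Nat.prime_iff_prime_int.mp hpf.out
  have hp2 : p ≠ 2 := by
    rintro rfl
    exact hAB ⟨A * B * (A - B), by push_cast; ring⟩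
  have hprod : x * (x - A) * (x - B) ≠ 0 := by
    rw [← hxy]
    exact pow_ne_zero 2 hy
  have hx0 : x ≠ 0 := left_ne_zero_of_mul (left_ne_zero_of_mul hprod)
  have hxA0 : x - A ≠ 0 := right_ne_zero_of_mul (left_ne_zero_of_mul hprod)
  obtain ⟨D, x', y', hD, -, hy', hxy', hq1, hq2⟩ := h p A B x y hp2 hy hxy
  have hprod' : x' * (x' - (A * D : ℤ)) * (x' - (B * D : ℤ)) ≠ 0 := by
    rw [← hxy']
    exact pow_ne_zero 2 hy'
  have hx0' : x' ≠ 0 := left_ne_zero_of_mul (left_ne_zero_of_mul hprod')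
  have hxA0' : x' - (A * D : ℤ) ≠ 0 := right_ne_zero_of_mul (left_ne_zero_of_mul hprod')
  have hgood := Pool.Agent.W22.RK.good p (A * D) (B * D) (by
    intro h1
    have e : 2 * (A * D) * (B * D) * (A * D - B * D) = (2 * A * B * (A - B)) * D ^ 3 := by ring
    rw [e] at h1
    rcases hpp.dvd_or_dvd h1 with h2 | h2
    · exact hAB h2
    · exact hD (hpp.dvd_of_dvd_pow h2)) x' y' hy' hxy'
  have key : ∀ (a : ℚ_[p]) (a' : ℚ) (d : ℤ), a ≠ 0 → a' ≠ 0 → Squarefree d →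
      Even (padicValRat p a') → IsSquare (a * (a' : ℚ_[p])) → IsSquare (a * d) →
      ¬ (p : ℤ) ∣ d := by
    intro a a' d ha ha' hd he h1 h2
    have hd0 : (d : ℚ_[p]) ≠ 0 := by exact_mod_cast hd.ne_zero
    have ha0 : (a' : ℚ_[p]) ≠ 0 := by exact_mod_cast ha'
    have e1 := even_val ha ha0 h1
    have e2 := even_val ha hd0 h2
    rw [Padic.valuation_ratCast] at e1
    have e3 : Even a.valuation := (Int.even_add.mp e1).mpr he
    exact not_dvd hd ((Int.even_add.mp e2).mp e3)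
  exact ⟨key x x' d1 hx0 hx0' hd1 hgood.1 hq1 hs1,
    key (x - A) (x' - (A * D : ℤ)) d2 hxA0 hxA0' hd2 hgood.2.1 hq2 hs2⟩

end Pool.Agent.W405.SE
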